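import Pool.Agent.Y5.V.Stm

/-!
Project VL (helper5), part VL-MAX (job 8144, helper542): the maximal solution.
-/

open Set Filter Topology
open scoped ComplexConjugate

set_option autoImplicit false

namespace Pool.Agent.Y542.VL.Max

open Pool.Agent.Y6.M (Z3 C3 Coef dt kc cj nsq len adv leray IsField energy)
open Pool.Agent.Y5.V

theorem Sol.restrict {d : Z3 → ℝ} {T T' : ℝ} {V : ℝ → Coef} (h : Sol d T V) (hT : T' ≤ T) :
    Sol d T' V where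
  field t ht := h.field t ⟨ht.1, ht.2.trans_le hT⟩
  reg q T'' hT'' := h.reg q T'' (hT''.trans_le hT)
  eqn k hk j t ht := (h.eqn k hk j t ⟨ht.1, ht.2.trans_le hT⟩).mono (Ico_subset_Ico_right hT)

theorem CSol.toSol {d : Z3 → ℝ} {T : ℝ} {V : ℝ → Coef} (h : CSol d T V) : Sol d T V where
  field t ht := h.field t (Ico_subset_Icc_self ht)
  reg q T' hT' := by
    obtain ⟨M, hM⟩ := h.reg q
    exact ⟨M, fun t ht => hM t ⟨ht.1, ht.2.trans hT'.le⟩⟩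
  eqn k hk j t ht := (h.eqn k hk j t (Ico_subset_Icc_self ht)).mono Ico_subset_Icc_self

/-- there is a solution on `[0, T)` -/
def P (d : Z3 → ℝ) (V0 : Coef) (T : ℝ) : Prop := 0 < T ∧ ∃ W, Sol d T W ∧ W 0 = V0

open Classical in
/-- the maximal solution -/
noncomputable def mx (d : Z3 → ℝ) (V0 : Coef) (t : ℝ) : Coef :=
  if h : ∃ T', t < T' ∧ P d V0 T' then h.choose_spec.2.2.choose t else V0

theorem mx_eq (hU : S_UNQ) {d : Z3 → ℝ} (hd : Dmp d) {V0 : Coef} {T : ℝ} {W : ℝ → Coef} (hT : 0 < T)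
    (hW : Sol d T W) (hW0 : W 0 = V0) {t : ℝ} (ht : t ∈ Ico 0 T) : W t = mx d V0 t := by
  have h : ∃ T', t < T' ∧ P d V0 T' := ⟨T, ht.2, hT, W, hW, hW0⟩
  unfold mx
  rw [dif_pos h]
  have h1 := h.choose_spec.1
  have h2 := h.choose_spec.2.2.choose_spec.1
  have h3 := h.choose_spec.2.2.choose_spec.2
  exact hU d (min T h.choose) W _ hd (Sol.restrict hW (min_le_left _ _)) (Sol.restrict h2 (min_le_right _ _))
    (hW0.trans h3.symm) t ⟨ht.1, lt_min ht.2 h1⟩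

theorem sol_congr_local {d : Z3 → ℝ} {T : ℝ} {V : ℝ → Coef}
    (h : ∀ T1 < T, ∃ T' W, T1 < T' ∧ Sol d T' W ∧ ∀ t ∈ Ico 0 T', W t = V t) : Sol d T V where
  field t ht := by
    obtain ⟨T', W, h1, h2, h3⟩ := h t ht.2
    rw [← h3 t ⟨ht.1, h1⟩]
    exact h2.field t ⟨ht.1, h1⟩
  reg q T1 hT1 := by
    obtain ⟨T', W, h1, h2, h3⟩ := h T1 hT1
    obtain ⟨M, hM⟩ := h2.reg q T1 h1
    refine ⟨M, fun t ht k j => ?_⟩
    rw [← h3 t ⟨ht.1, ht.2.trans_lt h1⟩]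
    exact hM t ht k j
  eqn k hk j t ht := by
    obtain ⟨T', W, h1, h2, h3⟩ := h t ht.2
    have htT : t ∈ Ico 0 T' := ⟨ht.1, h1⟩
    have h4 : HasDerivWithinAt (fun s => V s k j) (rhs d (V t) k j) (Ico 0 T') t := by
      rw [← h3 t htT]
      exact (h2.eqn k hk j t htT).congr (fun s hs => by rw [h3 s hs]) (by rw [h3 t htT])
    refine h4.mono_of_mem_nhdsWithin ?_
    refine mem_of_superset (inter_mem_nhdsWithin _ (Iio_mem_nhds h1)) ?_
    intro s hs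
    exact ⟨hs.1.1, hs.2⟩

theorem t_MAX : S_MAX := by
  intro hLoc hU hG d V0 T₀ hd hV0 hT0
  have hne : ∃ T, P d V0 T := by
    obtain ⟨δ, hδ, h⟩ := hLoc (hE 3 V0)
    obtain ⟨V, h1, h2⟩ := h d V0 hd hV0 le_rfl
    exact ⟨δ, hδ, V, CSol.toSol h1, h2⟩
  have hbd : BddAbove {T | P d V0 T} := ⟨T₀, fun T hT => by
    obtain ⟨h1, W, h2, h3⟩ := hT
    exact hT0 T W h1 h2 h3⟩
  set T := sSup {T | P d V0 T} with hT
  have hle : ∀ T' (W : ℝ → Coef), 0 < T' → Sol d T' W → W 0 = V0 → T' ≤ T :=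
    fun T' W h1 h2 h3 => le_csSup hbd ⟨h1, W, h2, h3⟩
  have hsol : Sol d T (mx d V0) := by
    refine sol_congr_local fun T1 hT1 => ?_
    obtain ⟨T', ⟨h1, W, h2, h3⟩, h4⟩ := exists_lt_of_lt_csSup hne hT1
    exact ⟨T', W, h4, h2, fun t ht => mx_eq hU hd h1 h2 h3 ht⟩
  have h0 : mx d V0 0 = V0 := by
    obtain ⟨T', h1, W, h2, h3⟩ := hne
    rw [← mx_eq hU hd h1 h2 h3 ⟨le_rfl, h1⟩, h3]
  have hTpos : 0 < T := by
    obtain ⟨T', h1, W, h2, h3⟩ := hne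
    exact h1.trans_le (hle T' W h1 h2 h3)
  refine ⟨T, mx d V0, hTpos, csSup_le hne fun T' h => ?_, hsol, h0, fun T' W h1 h2 h3 =>
    ⟨hle T' W h1 h2 h3, fun t ht => mx_eq hU hd h1 h2 h3 ht⟩, ?_⟩
  · obtain ⟨h1, W, h2, h3⟩ := h
    exact hT0 T' W h1 h2 h3
  · by_contra hcon
    push Not at hcon
    obtain ⟨M, hM⟩ := hcon
    obtain ⟨δ, hδ, h⟩ := hLoc M
    have ht1 : max 0 (T - δ / 2) ∈ Ico 0 T := ⟨le_max_left _ _, max_lt hTpos (by linarith)⟩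
    obtain ⟨W, h1, h2⟩ := h d (mx d V0 (max 0 (T - δ / 2))) hd (hsol.field _ ht1) (hM _ ht1)
    have h3 := le_max_right 0 (T - δ / 2)
    obtain ⟨U, h4, h5⟩ := hG hU d T δ _ (mx d V0) W hd hsol h1 hδ ht1 h2 (by linarith)
    have h6 := hle _ U (by linarith [ht1.1]) h4 (h5.trans h0)
    linarith

end Pool.Agent.Y542.VL.Max
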